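import Mathlib
import Pool.Agent.H645.Negative
import Pool.Agent.H645.PosFinal

set_option autoImplicit false

/-!
# Countable transversals of families of `ℵ_{ω+1}` sets: the question is undecided by ZFC + GCH

Assume GCH. Some forcing extension satisfies GCH and has no family as in the question. If some
cardinal `κ` is `κ^{+ω+1}`-supercompact, then some forcing extension satisfies GCH and has such a
family.
-/

namespace Pool.Agent.Results.MP_41bf72_lc.Independent

open Cardinal Pool.Agent.H645.Q
open Pool.Agent.H645 (lamOf IsNormalMeasure positive negative)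

/-- Assume GCH.
(1) There is a forcing notion `P` all of whose conditions force: GCH holds, and every family of
`ℵ_{ω+1}` sets of cardinality `ℵ_{ω+1}` whose degree of disjunction is `ℵ₀` has an
`ℵ₁`-transversal.
(2) If there is a normal measure on `P_κ(κ^{+ω+1})` for some uncountable `κ`, then there is a
forcing notion `P` all of whose conditions force: GCH holds, and there is a family of `ℵ_{ω+1}`
sets of cardinality `ℵ_{ω+1}` whose degree of disjunction is `ℵ₀` and which has no
`ℵ₁`-transversal. -/
theorem result (hGCH : ∀ ν : Cardinal.{0}, ℵ₀ ≤ ν → 2 ^ ν = Order.succ ν) :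
    (∃ (P : Type) (_ : Preorder P), Nonempty P ∧ ∃ c : Cardinal.{0}, ∀ p : P,
      p ∈ ForcesGCH P ∧ p ∈ IsAlephOmegaSucc P c ∧ p ∈ fnot (HasBadFamily P c.ord.ToType)) ∧
    ∀ κ : Cardinal.{0}, ℵ₀ < κ →
      (∃ W : Ultrafilter (Set (Order.succ (lamOf κ)).ord.ToType),
        IsNormalMeasure κ (Order.succ (lamOf κ)).ord.ToType W) →
      ∃ (P : Type) (_ : Preorder P), Nonempty P ∧ ∃ c : Cardinal.{0}, ∀ p : P,
        p ∈ ForcesGCH P ∧ p ∈ IsAlephOmegaSucc P c ∧ p ∈ HasBadFamily P c.ord.ToType :=
  ⟨positive hGCH, fun _ hκ ⟨_, hW⟩ => negative hGCH hκ hW⟩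

end Pool.Agent.Results.MP_41bf72_lc.Independent
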